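import Mathlib
import Pool.Agent.N989.MK.Strong

/-!
# Project HC (helper541), task C (helper319)

The weight off an open subgroup contracts under the Migdal-Kadanoff map.
-/

open MeasureTheory Pool.Agent.N991.MK Pool.Agent.N989.MK Filter
open scoped Topology

namespace Pool.Agent.N319.HC

set_option linter.unusedSectionVars false

noncomputable section

variable {G : Type*} [Group G] [TopologicalSpace G] [IsTopologicalGroup G] [CompactSpace G]
  [MeasurableSpace G] [BorelSpace G] [SecondCountableTopology G]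
  (μ : Measure G) [IsProbabilityMeasure μ] [μ.IsHaarMeasure] [μ.IsMulRightInvariant]
  [μ.IsInvInvariant]

/-- the mean over a subgroup -/
def av (H : Subgroup G) (f : G → ℝ) : ℝ := (∫ x in (H : Set G), f x ∂μ) / μ.real (H : Set G)

/-- off the subgroup the function is at most t times its mean over the subgroup -/
def Off (H : Subgroup G) (t : ℝ) (f : G → ℝ) : Prop := ∀ x, x ∉ H → f x ≤ t * av μ H f

variable {μ}

lemma real_pos {H : Subgroup G} (hH : IsOpen (H : Set G)) : 0 < μ.real (H : Set G) := by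
  rw [measureReal_def]
  exact ENNReal.toReal_pos (hH.measure_pos μ ⟨1, H.one_mem⟩).ne' (measure_ne_top _ _)

lemma real_le_one {H : Subgroup G} : μ.real (H : Set G) ≤ 1 := by
  have := measureReal_mono (μ := μ) (Set.subset_univ (H : Set G))
  simpa using this

lemma setInt_eq {H : Subgroup G} (hH : IsOpen (H : Set G)) (f : G → ℝ) :
    ∫ x in (H : Set G), f x ∂μ = μ.real (H : Set G) * av μ H f := by
  unfold av
  rw [mul_div_cancel₀ _ (real_pos hH).ne']

lemma setInt_pos {H : Subgroup G} (hH : IsOpen (H : Set G)) {f : G → ℝ} (hf : Continuous f)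
    (h0 : ∀ x, 0 < f x) : 0 < ∫ x in (H : Set G), f x ∂μ := by
  rw [setIntegral_pos_iff_support_of_nonneg_ae (Eventually.of_forall fun x => (h0 x).le)
    (integrable_of_cont hf).integrableOn]
  have : Function.support f = Set.univ := by
    ext y
    simp [(h0 y).ne']
  rw [this, Set.univ_inter]
  exact hH.measure_pos μ ⟨1, H.one_mem⟩

theorem av_pos {H : Subgroup G} (hH : IsOpen (H : Set G)) {f : G → ℝ} (hf : Continuous f)
    (h0 : ∀ x, 0 < f x) : 0 < av μ H f := div_pos (setInt_pos hH hf h0) (real_pos hH)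

lemma Off.mono {H : Subgroup G} (hH : IsOpen (H : Set G)) {f : G → ℝ} (hf : Continuous f)
    (h0 : ∀ x, 0 < f x) {s t : ℝ} (h : Off μ H s f) (hst : s ≤ t) : Off μ H t f := fun x hx =>
  (h x hx).trans (mul_le_mul_of_nonneg_right hst (av_pos hH hf h0).le)

theorem int_le {H : Subgroup G} (hH : IsOpen (H : Set G)) {f : G → ℝ} (hf : Continuous f)
    (h0 : ∀ x, 0 < f x) {t : ℝ} (ht0 : 0 ≤ t) (ht : Off μ H t f) :
    ∫ x, f x ∂μ ≤ av μ H f * (μ.real (H : Set G) + t) := by
  have hi : Integrable f μ := integrable_of_cont hf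
  rw [← integral_add_compl hH.measurableSet hi, setInt_eq hH]
  have ha := av_pos (μ := μ) hH hf h0
  have h1 : ∫ x in (H : Set G)ᶜ, f x ∂μ ≤ ∫ _ in (H : Set G)ᶜ, t * av μ H f ∂μ :=
    setIntegral_mono_on hi.integrableOn (integrable_const _) hH.measurableSet.compl
      (fun x hx => ht x hx)
  have h2 : ∫ _ in (H : Set G)ᶜ, t * av μ H f ∂μ ≤ t * av μ H f := by
    rw [setIntegral_const, smul_eq_mul]
    have : μ.real (H : Set G)ᶜ ≤ 1 := by
      have := measureReal_mono (μ := μ) (Set.subset_univ (H : Set G)ᶜ)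
      simpa using this
    exact mul_le_of_le_one_left (mul_nonneg ht0 ha.le) this
  linarith [h1.trans h2]

/-- the convolution off the subgroup -/
lemma conv_off {H : Subgroup G} (hH : IsOpen (H : Set G)) {f g : G → ℝ} (hf : Continuous f)
    (hg : Continuous g) (f0 : ∀ x, 0 < f x) (g0 : ∀ x, 0 < g x) {s t : ℝ} (hs0 : 0 ≤ s)
    (ht0 : 0 ≤ t) (hs : Off μ H s f) (ht : Off μ H t g) {x : G} (hx : x ∉ H) :
    conv μ f g x ≤ av μ H f * av μ H g *
      (μ.real (H : Set G) * t + s * (μ.real (H : Set G) + t)) := by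
  have ha := av_pos (μ := μ) hH hf f0
  have hb := av_pos (μ := μ) hH hg g0
  have cg : Continuous fun y => g (y⁻¹ * x) := by fun_prop
  have ig : Integrable (fun y => g (y⁻¹ * x)) μ := integrable_of_cont cg
  have ifg : Integrable (fun y => f y * g (y⁻¹ * x)) μ := integrable_of_cont (hf.mul cg)
  have hfi : Integrable f μ := integrable_of_cont hf
  unfold Pool.Agent.N991.MK.conv
  rw [← integral_add_compl hH.measurableSet ifg]
  have h1 : ∫ y in (H : Set G), f y * g (y⁻¹ * x) ∂μ ≤
      ∫ y in (H : Set G), f y * (t * av μ H g) ∂μ := by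
    refine setIntegral_mono_on ifg.integrableOn (hfi.mul_const _).integrableOn
      hH.measurableSet (fun y hy => ?_)
    refine mul_le_mul_of_nonneg_left (ht _ fun hm => hx ?_) (f0 y).le
    have := H.mul_mem hy hm
    simpa using this
  have h2 : ∫ y in (H : Set G)ᶜ, f y * g (y⁻¹ * x) ∂μ ≤
      ∫ y in (H : Set G)ᶜ, (s * av μ H f) * g (y⁻¹ * x) ∂μ := by
    refine setIntegral_mono_on ifg.integrableOn (ig.const_mul _).integrableOn
      hH.measurableSet.compl (fun y hy => ?_)
    exact mul_le_mul_of_nonneg_right (hs y hy) (g0 _).le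
  have h3 : ∫ y in (H : Set G), f y * (t * av μ H g) ∂μ =
      μ.real (H : Set G) * av μ H f * (t * av μ H g) := by
    rw [integral_mul_const, setInt_eq hH]
  have h4 : ∫ y in (H : Set G)ᶜ, (s * av μ H f) * g (y⁻¹ * x) ∂μ ≤
      (s * av μ H f) * (av μ H g * (μ.real (H : Set G) + t)) := by
    rw [integral_const_mul]
    refine mul_le_mul_of_nonneg_left ?_ (mul_nonneg hs0 ha.le)
    refine (setIntegral_le_integral ig (Eventually.of_forall fun y => (g0 _).le)).trans ?_
    have h5 : ∫ y, g (y⁻¹ * x) ∂μ = ∫ y, g y ∂μ := by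
      rw [integral_inv_eq_self (μ := μ) (fun y => g (y * x))]
      exact integral_mul_right_eq_self (μ := μ) g x
    rw [h5]
    exact int_le hH hg g0 ht0 ht
  have h6 := add_le_add (h1.trans_eq h3) (h2.trans h4)
  refine h6.trans (le_of_eq ?_)
  ring

/-- the mean of the convolution -/
lemma av_conv {H : Subgroup G} (hH : IsOpen (H : Set G)) {f g : G → ℝ} (hf : Continuous f)
    (hg : Continuous g) (f0 : ∀ x, 0 < f x) (g0 : ∀ x, 0 < g x) :
    μ.real (H : Set G) * (av μ H f * av μ H g) ≤ av μ H (conv μ f g) := by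
  have hp := real_pos (μ := μ) hH
  have hc : Continuous fun p : G × G => f p.2 * g (p.2⁻¹ * p.1) := by fun_prop
  have hi : Integrable (fun p : G × G => f p.2 * g (p.2⁻¹ * p.1)) (μ.prod μ) :=
    hc.integrable_of_hasCompactSupport (HasCompactSupport.of_compactSpace _)
  have h1 : ∫ x in (H : Set G), (∫ y in (H : Set G), f y * g (y⁻¹ * x) ∂μ) ∂μ ≤
      ∫ x in (H : Set G), conv μ f g x ∂μ := by
    refine setIntegral_mono_on ?_ (integrable_of_cont (cont_conv hf hg)).integrableOn
      hH.measurableSet (fun x _ => ?_)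
    · have h2 : Integrable (fun p : G × G => f p.2 * g (p.2⁻¹ * p.1))
          ((μ.restrict (H : Set G)).prod (μ.restrict (H : Set G))) := by
        rw [Measure.prod_restrict]
        exact hi.integrableOn
      exact h2.integral_prod_left
    · have cx : Continuous fun y => f y * g (y⁻¹ * x) := by fun_prop
      exact setIntegral_le_integral (integrable_of_cont cx)
        (Eventually.of_forall fun y => (mul_pos (f0 _) (g0 _)).le)
  have h3 : ∫ x in (H : Set G), (∫ y in (H : Set G), f y * g (y⁻¹ * x) ∂μ) ∂μ =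
      (∫ y in (H : Set G), f y ∂μ) * ∫ y in (H : Set G), g y ∂μ := by
    rw [integral_integral_swap (f := fun x y => f y * g (y⁻¹ * x))]
    · have h4 : ∀ y ∈ (H : Set G), ∫ x in (H : Set G), f y * g (y⁻¹ * x) ∂μ =
          f y * ∫ x in (H : Set G), g x ∂μ := by
        intro y hy
        rw [integral_const_mul]
        congr 1
        rw [← integral_indicator hH.measurableSet, ← integral_indicator hH.measurableSet,
          ← integral_mul_left_eq_self (μ := μ) ((H : Set G).indicator fun x => g x) y⁻¹]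
        refine integral_congr_ae (Eventually.of_forall fun x => ?_)
        beta_reduce
        by_cases hx : x ∈ H
        · rw [Set.indicator_of_mem (show x ∈ (H : Set G) from hx),
            Set.indicator_of_mem (show y⁻¹ * x ∈ (H : Set G) from
              H.mul_mem (H.inv_mem hy) hx)]
        · rw [Set.indicator_of_notMem (show x ∉ (H : Set G) from hx),
            Set.indicator_of_notMem (show y⁻¹ * x ∉ (H : Set G) from fun hm => hx (by
              have := H.mul_mem hy hm
              simpa using this))]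
      rw [setIntegral_congr_fun hH.measurableSet h4, integral_mul_const]
    · change Integrable (fun p : G × G => f p.2 * g (p.2⁻¹ * p.1))
          ((μ.restrict (H : Set G)).prod (μ.restrict (H : Set G)))
      rw [Measure.prod_restrict]
      exact hi.integrableOn
  rw [h3, setInt_eq hH, setInt_eq hH, setInt_eq hH] at h1
  have h5 : μ.real (H : Set G) * (μ.real (H : Set G) * (av μ H f * av μ H g)) ≤
      μ.real (H : Set G) * av μ H (conv μ f g) := by
    refine le_trans (le_of_eq ?_) h1
    ring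
  exact le_of_mul_le_mul_left h5 hp

/-- two functions -/
theorem Off.conv {H : Subgroup G} (hH : IsOpen (H : Set G)) {f g : G → ℝ} (hf : Continuous f)
    (hg : Continuous g) (f0 : ∀ x, 0 < f x) (g0 : ∀ x, 0 < g x) {s t : ℝ} (hs0 : 0 ≤ s)
    (ht0 : 0 ≤ t) (hs : Off μ H s f) (ht : Off μ H t g) :
    Off μ H (t + s * (1 + t / μ.real (H : Set G))) (conv μ f g) := by
  intro x hx
  have hp := real_pos (μ := μ) hH
  refine (conv_off hH hf hg f0 g0 hs0 ht0 hs ht hx).trans ?_
  have h1 := av_conv (μ := μ) hH hf hg f0 g0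
  have h2 : 0 ≤ t + s * (1 + t / μ.real (H : Set G)) := by positivity
  refine le_trans (le_of_eq ?_) (mul_le_mul_of_nonneg_left h1 h2)
  field_simp

lemma av_pow {H : Subgroup G} (hH : IsOpen (H : Set G)) {g : G → ℝ} (hg : Continuous g) :
    av μ H g ^ 4 ≤ av μ H (fun x => g x ^ 4) := by
  have hp := real_pos (μ := μ) hH
  set A := av μ H g with hA
  have h1 : ∫ x in (H : Set G), (4 * A ^ 3 * g x - 3 * A ^ 4) ∂μ ≤
      ∫ x in (H : Set G), g x ^ 4 ∂μ := by
    refine setIntegral_mono_on
      (((integrable_of_cont hg).const_mul _).sub (integrable_const _)).integrableOn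
      (integrable_of_cont (hg.pow 4)).integrableOn hH.measurableSet (fun x _ => ?_)
    nlinarith [mul_nonneg (sq_nonneg (g x - A)) (add_nonneg (sq_nonneg (g x + A))
      (mul_nonneg (by norm_num : (0 : ℝ) ≤ 2) (sq_nonneg A)))]
  have h2 : ∫ x in (H : Set G), (4 * A ^ 3 * g x - 3 * A ^ 4) ∂μ =
      μ.real (H : Set G) * A ^ 4 := by
    rw [integral_sub ((integrable_of_cont hg).const_mul _).integrableOn
      (integrable_const _), integral_const_mul, setInt_eq hH, setIntegral_const, smul_eq_mul,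
      ← hA]
    ring
  rw [h2, setInt_eq hH] at h1
  exact le_of_mul_le_mul_left h1 hp

lemma Off.pow {H : Subgroup G} (hH : IsOpen (H : Set G)) {g : G → ℝ} (hg : Continuous g)
    (g0 : ∀ x, 0 < g x) {s : ℝ} (hs : Off μ H s g) :
    Off μ H (s ^ 4) (fun x => g x ^ 4) := by
  intro x hx
  calc g x ^ 4 ≤ (s * av μ H g) ^ 4 := pow_le_pow_left₀ (g0 x).le (hs x hx) 4
    _ = s ^ 4 * av μ H g ^ 4 := by ring
    _ ≤ s ^ 4 * av μ H (fun x => g x ^ 4) :=
      mul_le_mul_of_nonneg_left (av_pow hH hg) (by positivity)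

/-- C1 -/
theorem Off.TT {H : Subgroup G} (hH : IsOpen (H : Set G)) {f : G → ℝ} (hf : Continuous f)
    (h0 : ∀ x, 0 < f x) {t : ℝ} (ht0 : 0 ≤ t) (ht : Off μ H t f) :
    Off μ H ((4 * t * (1 + t / μ.real (H : Set G)) ^ 3) ^ 4) (TT μ f) := by
  have hp := real_pos (μ := μ) hH
  have c1 : Continuous (Pool.Agent.N991.MK.conv μ f f) := cont_conv hf hf
  have p1 : ∀ x, 0 < Pool.Agent.N991.MK.conv μ f f x := conv_pos hf hf h0 h0
  have o1 := Off.conv hH hf hf h0 h0 ht0 ht0 ht ht
  set u := t / μ.real (H : Set G) with hu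
  have hu0 : 0 ≤ u := by positivity
  have ht1 : 0 ≤ t + t * (1 + u) := by positivity
  have o2 := Off.conv hH c1 c1 p1 p1 ht1 ht1 o1 o1
  have c2 : Continuous (H4 μ f) := cont_conv c1 c1
  have p2 : ∀ x, 0 < H4 μ f x := conv_pos c1 c1 p1 p1
  have e1 : (t + t * (1 + u)) / μ.real (H : Set G) = u * (2 + u) := by
    rw [hu]
    field_simp
    ring
  rw [e1] at o2
  have o3 : Off μ H (4 * t * (1 + u) ^ 3) (H4 μ f) := by
    refine Off.mono hH c2 p2 o2 ?_
    have h1 : 0 ≤ t * u := by positivity
    have h2 : 0 ≤ t * u ^ 2 := by positivity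
    have h3 : 0 ≤ t * u ^ 3 := by positivity
    nlinarith
  exact Off.pow hH c2 p2 o3

/-- C2 -/
theorem off_iter {H : Subgroup G} (hH : IsOpen (H : Set G)) :
    ∃ t0 > 0, ∀ f, Adm f → ∀ t, 0 ≤ t → t ≤ t0 → Off μ H t f →
      ∀ k, Off μ H (t / 2 ^ k) (TTn μ f k) := by
  have hp := real_pos (μ := μ) hH
  refine ⟨min (μ.real (H : Set G)) (1 / 128), lt_min hp (by norm_num),
    fun f hf t ht0 ht h k => ?_⟩
  induction k with
  | zero => simpa [TTn] using h
  | succ k ih =>
    have hk : Adm (TTn μ f k) := hf.TTn k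
    have hk2 : Adm (Pool.Agent.N989.MK.TT μ (TTn μ f k)) := hk.TT
    have hle : t / 2 ^ k ≤ t := div_le_self ht0 (one_le_pow₀ (by norm_num))
    have hk0 : 0 ≤ t / 2 ^ k := by positivity
    have h1 := Off.TT hH hk.cont hk.pos hk0 ih
    refine Off.mono hH hk2.cont hk2.pos h1 ?_
    have e : t / 2 ^ (k + 1) = (t / 2 ^ k) / 2 := by
      rw [pow_succ]
      field_simp
    rw [e]
    set s := t / 2 ^ k with hs
    have hs1 : s ≤ μ.real (H : Set G) := hle.trans (ht.trans (min_le_left _ _))
    have hs2 : s ≤ 1 / 128 := hle.trans (ht.trans (min_le_right _ _))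
    have h2 : s / μ.real (H : Set G) ≤ 1 := (div_le_one hp).2 hs1
    have h20 : 0 ≤ s / μ.real (H : Set G) := by positivity
    have h3 : (1 + s / μ.real (H : Set G)) ^ 3 ≤ 2 ^ 3 :=
      pow_le_pow_left₀ (by positivity) (by linarith) 3
    have h4 : 4 * s * (1 + s / μ.real (H : Set G)) ^ 3 ≤ 32 * s := by nlinarith
    have h5 : (4 * s * (1 + s / μ.real (H : Set G)) ^ 3) ^ 4 ≤ (32 * s) ^ 4 :=
      pow_le_pow_left₀ (by positivity) h4 4
    refine h5.trans ?_
    have h6 : s ^ 3 ≤ (1 / 128) ^ 3 := pow_le_pow_left₀ hk0 hs2 3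
    have e2 : (32 * s) ^ 4 = 1048576 * s ^ 3 * s := by ring
    rw [e2]
    have h7 : 1048576 * s ^ 3 ≤ 1 / 2 := by
      norm_num at h6 ⊢
      linarith
    nlinarith

end

end Pool.Agent.N319.HC
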